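import Pool.Agent.TH829.Inj.CK

/-!
# Chow-Künneth decompositions and nilpotence modulo prime tensor ideals

Let `𝒜` be a `ℚ`-linear symmetric monoidal category with duals and `F` a realisation: a symmetric
monoidal functor to finite-dimensional super vector spaces over a field `K` of characteristic zero.
The example is the category of Chow motives over `k` with a Weil cohomology. Let `M` be an object,
for example `M = h(X)`.

(1) All endomorphisms of `M` with realisation zero are nilpotent if and only if, for each prime
tensor ideal `P`, they are nilpotent modulo `P`.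

(2) Suppose that this condition holds modulo each prime tensor ideal `P`, with exponents which may
depend on `P` and on the endomorphism, and that a complete system of orthogonal projectors of
`F(M)`, for example the Künneth components, is realised by endomorphisms `p i` of `M` (the standard
conjecture of Künneth type for `X`). Then `M` has a decomposition with these realisations: there are
orthogonal idempotents `π i` with sum `𝟙 M` and `F(π i) = F(p i)`; and it is unique up to
conjugation with an automorphism of `M`.

Proof. (1) If `x` is not nilpotent then the zero ideal does not contain any of the morphisms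
`(x^k)^{⊗n}` (a partial trace of `(x^k)^{⊗n}` is `x^{kn}`), and a tensor ideal which is maximal
among those which do not contain any of them is prime. (2) Idempotents can be lifted modulo ideals
consisting of nilpotent elements; two lifts `π`, `ρ` are conjugate by the sum of the `π i ≫ ρ i`,
which is `1` plus a nilpotent endomorphism.
-/

set_option autoImplicit false

open CategoryTheory MonoidalCategory

universe u v w

namespace Pool.Agent.Results.MP_638e8a_ag.LocalNilpotence

open Pool.Agent.TH829.Ten (Family IsPrimeIdeal)
open Pool.Agent.TH90.Kim (SuperRealisation pw)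

/-- The endomorphisms `π i` of `M` are orthogonal idempotents with sum the identity. -/
def IsDecomposition {𝒜 : Type u} [Category.{v} 𝒜] [Preadditive 𝒜] {ι : Type} [Fintype ι] {M : 𝒜}
    (π : ι → (M ⟶ M)) : Prop :=
  (∀ i, π i ≫ π i = π i) ∧ (∀ i j, i ≠ j → π i ≫ π j = 0) ∧ ∑ i, π i = 𝟙 M

/-- The realisations of the endomorphisms `p i` of `M` are orthogonal projectors with sum the
identity. -/
def RealisesProjectors {𝒜 : Type u} [Category.{v} 𝒜] [MonoidalCategory 𝒜] [SymmetricCategory 𝒜]
    [Preadditive 𝒜] [Linear ℚ 𝒜] {K : Type w} [Field K] (F : SuperRealisation 𝒜 K) {ι : Type}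
    [Fintype ι] {M : 𝒜} (p : ι → (M ⟶ M)) : Prop :=
  (∀ i v, F.map (p i ≫ p i) v = F.map (p i) v) ∧ (∀ i j, i ≠ j → ∀ v, F.map (p i ≫ p j) v = 0) ∧
    ∀ v, F.map (∑ i, p i) v = v

/-- The endomorphisms of `M` with realisation zero are nilpotent modulo `P`. -/
def NilpotentMod {𝒜 : Type u} [Category.{v} 𝒜] [MonoidalCategory 𝒜] [SymmetricCategory 𝒜]
    [Preadditive 𝒜] [Linear ℚ 𝒜] {K : Type w} [Field K] (F : SuperRealisation 𝒜 K)
    (P : Family 𝒜) (M : 𝒜) : Prop :=
  ∀ x : M ⟶ M, (∀ v, F.map x v = 0) → ∃ k, pw x k ∈ P M M

/-- (1) The endomorphisms of `M` with realisation zero are nilpotent if and only if they are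
nilpotent modulo each prime tensor ideal. (2) If they are nilpotent modulo each prime tensor ideal
and the endomorphisms `p i` realise a complete system of orthogonal projectors, then there is a
decomposition `π` of `M` with `F(π i) = F(p i)`, and any two such decompositions are conjugate by an
automorphism of `M`. -/
theorem result {𝒜 : Type u} [Category.{v} 𝒜] [MonoidalCategory 𝒜] [SymmetricCategory 𝒜]
    [Preadditive 𝒜] [MonoidalPreadditive 𝒜] [Linear ℚ 𝒜] [MonoidalLinear ℚ 𝒜]
    [∀ X : 𝒜, HasRightDual X] {K : Type w} [Field K] [CharZero K] (F : SuperRealisation 𝒜 K)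
    (M : 𝒜) :
    ((∀ x : M ⟶ M, (∀ v, F.map x v = 0) → ∃ k, pw x k = 0) ↔
      ∀ P : Family 𝒜, IsPrimeIdeal P → NilpotentMod F P M) ∧
    ((∀ P : Family 𝒜, IsPrimeIdeal P → NilpotentMod F P M) →
      ∀ (ι : Type) [Fintype ι] (p : ι → (M ⟶ M)), RealisesProjectors F p →
        (∃ π : ι → (M ⟶ M), IsDecomposition π ∧ ∀ i v, F.map (π i) v = F.map (p i) v) ∧
        ∀ π ρ : ι → (M ⟶ M), IsDecomposition π → IsDecomposition ρ →
          (∀ i v, F.map (π i) v = F.map (p i) v) → (∀ i v, F.map (ρ i) v = F.map (p i) v) →
          ∃ u : M ≅ M, ∀ i, ρ i = u.inv ≫ π i ≫ u.hom) := by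
  have key := Pool.Agent.TH829.Inj.nil_iff F.toReal M
  refine ⟨key, fun h ι _ p hp => ?_⟩
  have hnil := key.2 h
  refine ⟨Pool.Agent.TH829.Inj.exists_lift_projectors F.toReal p ⟨hp.2.2, hp.1, hp.2.1⟩ hnil,
    fun π ρ hπ hρ h1 h2 => ?_⟩
  exact Pool.Agent.TH829.Inj.conj_projectors F.toReal π ρ hπ hρ
    (fun i v => (h1 i v).trans (h2 i v).symm) hnil

end Pool.Agent.Results.MP_638e8a_ag.LocalNilpotence
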