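import Pool.Agent.TH133.Summand

/-!
# Chow-Kunneth decompositions of direct summands

`𝒱` is a class of smooth projective geometrically irreducible varieties over the field `k` closed
under products (for example all of them), `C` the Chow groups with rational coefficients (in the
form of their formal properties, `IsChowProj`) and `H` a Weil cohomology theory (`IsWeilProj`).

Let `X` be a variety with a Chow-Kunneth decomposition `π`, and let `Y` be a variety such that
`h(Y)(-r)` is a direct summand of `h(X)` for some `r ≥ 0` (`IsSummand`), for example a variety
dominated by `X`, or the quotient of `X` by a finite group if it is smooth, or a variety such that a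
blow-up of it is `X`. It is not known in general that `Y` has a Chow-Kunneth decomposition. This is
proved here if correspondences do not raise weights, that is, `π_b ∘ γ ∘ π_a = 0` for all
`γ ∈ CH^(dim X)(X × X)` and `a < b` (`WeightTriangular`). This is so, for all `π`, if the step `F^0`
of the filtration of `CH^i(X × X)` does not depend on the Chow-Kunneth decomposition of `X × X`
(`MurreC0`). No nilpotence or finite-dimensionality is assumed: the diagonal blocks `π_a ∘ γ ∘ π_a`
are arbitrary.
-/

open CategoryTheory AlgebraicGeometry

set_option autoImplicit false

universe u v w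

namespace Pool.Agent.Results.MP_638e8a_ag.TriangularSummands

open Pool.Agent.H914 Pool.Agent.W492.BB Pool.Agent.TH133

/-- If `X` has a Chow-Kunneth decomposition the weights of which are not raised by correspondences
(or if it has a Chow-Kunneth decomposition and `F^0 CH^i(X × X)` is independent of the Chow-Kunneth
decomposition of `X × X` for all `i`), then each variety `Y` such that `h(Y)(-r)` is a direct summand
of `h(X)` has a Chow-Kunneth decomposition. -/
theorem result {k : Type u} [Field k] {𝒱 : VarClass k} (C : TheoryData.{u, v, 0} 𝒱 ℚ)
    [IsChowProj C] {K : Type w} [Field K] (H : WeilTheoryData.{u, v, w} C K) [IsWeilProj H]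
    (X : 𝒱.Obj)
    (hX : ∃ π : ℕ → C.A (X.prod X), IsCK H X π ∧ (WeightTriangular C π ∨ MurreC0 H (X.prod X)))
    (Y : 𝒱.Obj) (r : ℕ) (hY : IsSummand C Y X r) :
    ∃ ρ : ℕ → C.A (Y.prod Y), IsCK H Y ρ := by
  obtain ⟨π, hπ, h | h⟩ := hX
  · exact exists_CK_of_triangular hπ h hY
  · exact exists_CK_of_triangular hπ (weightTriangular_of_B0 (murreB0_of_C0 _ h) hπ) hY

end Pool.Agent.Results.MP_638e8a_ag.TriangularSummands
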